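import Mathlib

namespace Pool.Agent.Results.MP_a338c1_co.Upper

open Finset

/-- `S` is a set of cells `(a, b, c)`, `a + b + c = n - 1`, of the board `T_n`, and every cell of
`T_n` agrees with some cell of `S` in at least one coordinate. -/
def Covering (n : ℕ) (S : Finset (ℕ × ℕ × ℕ)) : Prop :=
  (∀ p ∈ S, p.1 + p.2.1 + p.2.2 = n - 1) ∧
    ∀ a b c : ℕ, a + b + c = n - 1 → ∃ p ∈ S, p.1 = a ∨ p.2.1 = b ∨ p.2.2 = c

/-- The least number of rooks in a covering set of `T_n`. -/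
noncomputable def gamma (n : ℕ) : ℕ := sInf {k | ∃ S, Covering n S ∧ S.card = k}

def rook (m t e i : ℕ) : ℕ × ℕ × ℕ :=
  if i ≤ m then (e + 2 * i + 1, 2 * (m + i), 4 * (m - i))
  else if i ≤ 2 * m then (e + 2 * i + 1, 2 * (i - m - 1), 2 * (4 * m + 1 - 2 * i))
  else if i ≤ 2 * m + t then
    (e + 2 * (i - 2 * m - 1), 2 * (i - 2 * m - 1) + 1, 6 * m - 4 * (i - 2 * m - 1))
  else if i ≤ 2 * m + 2 * t then
    (e + 2 * (i - 2 * m - 1), 6 * m + 2 * t - 4 * (i - 2 * m - 1), 2 * (i - 2 * m - 1 - t) + 1)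
  else if i ≤ 2 * m + 3 * t then
    (e + (6 * m + 4 * t - 1 - 4 * (i - 2 * m - 1)), 2 * (i - 2 * m - 1 - t) + 1,
      2 * (i - 2 * m - 1 - t) + 1)
  else (i - 2 * m - 1 - 3 * t, e + 6 * m + 1 + 2 * m + 1 + 3 * t - i, 0)

lemma cover (m t e : ℕ) (h1 : m ≤ 4 * t) (h2 : 4 * t ≤ m + 3) :
    Covering (6 * m + 2 + e) ((range (2 * m + 1 + 3 * t + e)).image (rook m t e)) := by
  constructor
  · intro p hp
    obtain ⟨i, hi, rfl⟩ := mem_image.mp hp
    rw [mem_range] at hi
    unfold rook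
    split_ifs <;> simp only <;> omega
  · intro a b c h
    have key : ∀ i, i < 2 * m + 1 + 3 * t + e →
        ((rook m t e i).1 = a ∨ (rook m t e i).2.1 = b ∨ (rook m t e i).2.2 = c) →
        ∃ p ∈ (range (2 * m + 1 + 3 * t + e)).image (rook m t e),
          p.1 = a ∨ p.2.1 = b ∨ p.2.2 = c :=
      fun i hi h => ⟨_, mem_image_of_mem _ (mem_range.mpr hi), h⟩
    by_cases c1 : a < e
    · apply key (2 * m + 1 + 3 * t + a) (by omega)
      unfold rook; split_ifs <;> simp only <;> omega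
    by_cases c2 : (a - e) % 2 = 1 ∧ a - e ≤ 4 * m + 1
    · apply key ((a - e) / 2) (by omega)
      unfold rook; split_ifs <;> simp only <;> omega
    by_cases c3 : b % 2 = 0 ∧ 2 * m ≤ b ∧ b ≤ 4 * m
    · apply key (b / 2 - m) (by omega)
      unfold rook; split_ifs <;> simp only <;> omega
    by_cases c4 : b % 2 = 0 ∧ b < 2 * m
    · apply key (b / 2 + m + 1) (by omega)
      unfold rook; split_ifs <;> simp only <;> omega
    by_cases c5 : c % 4 = 0 ∧ c ≤ 4 * m
    · apply key (m - c / 4) (by omega)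
      unfold rook; split_ifs <;> simp only <;> omega
    by_cases c6 : c % 4 = 2 ∧ c ≤ 4 * m
    · apply key (2 * m - c / 4) (by omega)
      unfold rook; split_ifs <;> simp only <;> omega
    by_cases c7 : (a - e) % 2 = 0 ∧ a - e < 4 * t
    · apply key (2 * m + 1 + (a - e) / 2) (by omega)
      unfold rook; split_ifs <;> simp only <;> omega
    by_cases c8 : b % 2 = 1 ∧ b < 2 * t
    · apply key (2 * m + 1 + b / 2) (by omega)
      unfold rook; split_ifs <;> simp only <;> omega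
    by_cases c9 : b % 2 = 1 ∧ b < 4 * t
    · apply key (2 * m + 1 + t + b / 2) (by omega)
      unfold rook; split_ifs <;> simp only <;> omega
    by_cases c10 : c % 2 = 1 ∧ c < 4 * t
    · apply key (2 * m + 1 + t + c / 2) (by omega)
      unfold rook; split_ifs <;> simp only <;> omega
    exfalso
    omega

lemma gamma_le (m t e : ℕ) (h1 : m ≤ 4 * t) (h2 : 4 * t ≤ m + 3) :
    gamma (6 * m + 2 + e) ≤ 2 * m + 1 + 3 * t + e := by
  refine le_trans (Nat.sInf_le ⟨_, cover m t e h1 h2, rfl⟩) ?_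
  exact card_image_le.trans (card_range _).le

theorem result :
    (∀ n, 2 ≤ n → (∃ S, Covering n S) ∧ 24 * gamma n ≤ 11 * n + 121) ∧
      (∀ t, gamma (24 * t + 2) ≤ 11 * t + 1) ∧
      (∀ t, 1 ≤ t → gamma (24 * t + 2) < (24 * t + 2) / 2) := by
  have h2 : ∀ t, gamma (24 * t + 2) ≤ 11 * t + 1 := by
    intro t
    have := gamma_le (4 * t) t 0 (by omega) (by omega)
    rw [show 6 * (4 * t) + 2 + 0 = 24 * t + 2 by ring] at this
    omega
  refine ⟨?_, h2, fun t ht => by have := h2 t; omega⟩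
  intro n hn
  have e : n = 6 * ((n - 2) / 6) + 2 + (n - 2) % 6 := by omega
  have h := gamma_le ((n - 2) / 6) (((n - 2) / 6 + 3) / 4) ((n - 2) % 6) (by omega) (by omega)
  have h' := cover ((n - 2) / 6) (((n - 2) / 6 + 3) / 4) ((n - 2) % 6) (by omega) (by omega)
  rw [← e] at h h'
  exact ⟨⟨_, h'⟩, by omega⟩

end Pool.Agent.Results.MP_a338c1_co.Upper
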